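import Pool.Agent.H37.CNT.Stmts

/-!
# Row E2M: `EG k 2 h` is not of plus type
-/

set_option autoImplicit false

namespace Pool.CND

open Finset

theorem e2m_thm (hEGC : S_EGC) (hEGZ : S_EGZ) (hUPA : S_UPA) (hLOW : S_LOW) : S_E2M := by
  intro k _ _ _ _ h hh
  obtain ⟨hfin, hcard⟩ := hEGC 2 k h hh
  obtain ⟨z1, z2, z3, _⟩ := hEGZ 2 k h hh
  refine ⟨⟨hcard, z1, z2, z3⟩, ?_⟩
  rintro ⟨A, hA, hAc⟩
  have hp : Nat.Prime 2 := Nat.prime_two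
  have hc := hLOW 2 k h 1 hh le_rfl (by norm_num)
  have hcd : Nat.card (EG k 2 h) = 2 ^ h * Nat.card A * 1 := by
    rw [hcard, hAc, mul_one, ← pow_add]
    congr 1
    omega
  obtain ⟨z, hz⟩ := (hUPA 2 k (EG k 2 h) A h 1 hp inferInstance hA (by norm_num) hcd _ hc).2 rfl hh
  obtain ⟨h', rfl⟩ : ∃ h', h = h' + 1 := ⟨h - 1, by omega⟩
  rw [Nat.add_sub_cancel] at hz
  have h2 : (2 : ℚ) ^ h' ≠ 0 := pow_ne_zero _ (by norm_num)
  have h3 : ((2 : ℚ) ^ (h' + 1) + 1) = 2 * z := by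
    rw [← hz]
    push_cast
    rw [pow_succ]
    field_simp
  have h4 : ((2 : ℤ) ^ (h' + 1) + 1) = 2 * z := by exact_mod_cast h3
  rw [pow_succ] at h4
  omega

end Pool.CND
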