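import Pool.Agent.H37.CNT.Stmts

/-!
# Row PU2: the action on the pull-back
-/

set_option autoImplicit false

namespace Pool.CND

open Finset

open Polynomial in
theorem pu2_thm : S_PU2 := by
  intro k L L' G _ _ _ _ _ _ P t m j s P' ρ hm ht hPB hfix
  let φ : L[X] →+* L' := eval₂RingHom (j : L →+* L') s
  have hφC : ∀ a : L, φ (C a) = j a := fun a => eval₂_C _ _
  have hφX : φ X = s := eval₂_X _ _
  have hφs : Function.Surjective φ := by
    intro z
    obtain ⟨c, hc⟩ := hPB.span z
    refine ⟨∑ i : Fin m, C (c i) * X ^ (i : ℕ), ?_⟩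
    rw [map_sum, hc]
    refine Finset.sum_congr rfl (fun i _ => ?_)
    rw [map_mul, map_pow, hφC, hφX]
  let μ : L[X] := X ^ m - C t
  have hμ : μ.Monic := monic_X_pow_sub_C t (by omega)
  have hμd : μ.natDegree = m := natDegree_X_pow_sub_C
  have hφμ : φ μ = 0 := by
    change φ (X ^ m - C t) = 0
    rw [map_sub, map_pow, hφX, hφC, hPB.pow, sub_self]
  have hdvd : ∀ f : L[X], φ f = 0 → μ ∣ f := by
    intro f hf
    have h1 := modByMonic_add_div f μ
    have h2 : φ (f %ₘ μ) = 0 := by
      have := congrArg φ h1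
      rw [map_add, map_mul, hφμ, zero_mul, add_zero, hf] at this
      exact this
    have h3 : (f %ₘ μ).natDegree < m := by
      have := natDegree_modByMonic_lt f hμ (by
        intro h
        rw [h, natDegree_one] at hμd
        omega)
      rwa [hμd] at this
    have h4 := as_sum_range' (f %ₘ μ) m h3
    have h5 : ∑ i : Fin m, j ((f %ₘ μ).coeff (i : ℕ)) * s ^ (i : ℕ) = 0 := by
      rw [← h2]
      conv_rhs => rw [h4]
      rw [map_sum, Finset.sum_range]
      refine Finset.sum_congr rfl (fun i _ => ?_)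
      rw [← C_mul_X_pow_eq_monomial, map_mul, map_pow, hφC, hφX]
    have h6 := hPB.indep (fun i => (f %ₘ μ).coeff (i : ℕ)) h5
    rw [← modByMonic_eq_zero_iff_dvd hμ]
    ext i
    rw [coeff_zero]
    by_cases hi : i < m
    · exact h6 ⟨i, hi⟩
    · exact coeff_eq_zero_of_natDegree_lt (by omega)
  have hker : ∀ (g : G) (f : L[X]), φ f = 0 → φ (f.map (ρ g : L →+* L)) = 0 := by
    intro g f hf
    obtain ⟨q, rfl⟩ := hdvd f hf
    have h1 : μ.map (ρ g : L →+* L) = μ := by
      change (X ^ m - C t).map (ρ g : L →+* L) = X ^ m - C t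
      rw [Polynomial.map_sub, Polynomial.map_pow, map_X, map_C]
      change X ^ m - C (ρ g t) = X ^ m - C t
      rw [hfix g]
    rw [Polynomial.map_mul, h1, map_mul, hφμ, zero_mul]
  let σ : G → L' →+* L' := fun g =>
    φ.liftOfSurjective hφs ⟨φ.comp (mapRingHom (ρ g : L →+* L)), fun f hf => by
      rw [RingHom.mem_ker] at hf ⊢
      exact hker g f hf⟩
  have hσ : ∀ (g : G) (f : L[X]), σ g (φ f) = φ (f.map (ρ g : L →+* L)) := by
    intro g f
    have := φ.liftOfRightInverse_comp_apply (Function.surjInv hφs) (Function.rightInverse_surjInv hφs)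
      ⟨φ.comp (mapRingHom (ρ g : L →+* L)), fun f hf => by
        rw [RingHom.mem_ker] at hf ⊢
        exact hker g f hf⟩ f
    exact this
  have hσj : ∀ (g : G) (z : L), σ g (j z) = j (ρ g z) := by
    intro g z
    rw [← hφC, hσ, map_C, hφC]
    rfl
  have hσs : ∀ g : G, σ g s = s := by
    intro g
    conv_lhs => rw [← hφX]
    rw [hσ, map_X, hφX]
  let S : G → L' →ₐ[k] L' := fun g =>
    { σ g with
      commutes' := by
        intro a
        change σ g (algebraMap k L' a) = algebraMap k L' a
        rw [← j.commutes a, hσj, AlgEquiv.commutes] }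
  have hS : ∀ (g : G) (f : L[X]), S g (φ f) = φ (f.map (ρ g : L →+* L)) := hσ
  have hcomp : ∀ g h : G, ∀ z : L', S g (S h z) = S (g * h) z := by
    intro g h z
    obtain ⟨f, rfl⟩ := hφs z
    rw [hS, hS, hS, Polynomial.map_map]
    congr 2
    ext x
    change ρ g (ρ h x) = ρ (g * h) x
    rw [map_mul]
    rfl
  have hone : ∀ z : L', S 1 z = z := by
    intro z
    obtain ⟨f, rfl⟩ := hφs z
    rw [hS]
    have : ((ρ 1 : L ≃ₐ[k] L) : L →+* L) = RingHom.id L := by
      rw [map_one]
      rfl
    rw [this, Polynomial.map_id]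
  let ρ' : G →* (L' ≃ₐ[k] L') :=
    { toFun := fun g => AlgEquiv.ofAlgHom (S g) (S g⁻¹)
        (by
          ext z
          change S g (S g⁻¹ z) = z
          rw [hcomp, mul_inv_cancel, hone])
        (by
          ext z
          change S g⁻¹ (S g z) = z
          rw [hcomp, inv_mul_cancel, hone])
      map_one' := by
        ext z
        exact hone z
      map_mul' := by
        intro g h
        ext z
        exact (hcomp g h z).symm }
  refine ⟨ρ', fun g z => ?_, fun g => ?_⟩
  · exact hσj g z
  · exact hσs g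

end Pool.CND
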